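import Pool.Agent.H76.SW.T

namespace Pool.Agent.H22.SW

open Pool.Agent.H76.SW

theorem pf_D6 : U_d6_small := by
  intro V _ G k h
  refine ⟨Unit, inferInstance, ⊥, fun _ => Set.univ, ?_, ?_, ?_, ?_, ?_⟩
  · constructor
    · haveI : Nonempty Unit := ⟨()⟩
      refine ⟨fun a b => ?_⟩
      cases a; cases b; exact SimpleGraph.Reachable.refl _
    · intro v c hc
      exact SimpleGraph.isAcyclic_bot c hc
  · intro v; exact ⟨(), Set.mem_univ v⟩
  · intro u v _; exact ⟨(), Set.mem_univ u, Set.mem_univ v⟩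
  · intro v
    haveI : Nonempty ({x : Unit | v ∈ (fun _ : Unit => (Set.univ : Set V)) x}) := ⟨⟨(), Set.mem_univ v⟩⟩
    refine ⟨fun a b => ?_⟩
    obtain ⟨a, ha⟩ := a
    obtain ⟨b, hb⟩ := b
    cases a; cases b; exact SimpleGraph.Reachable.refl _
  · intro x
    refine ⟨Set.toFinite _, ?_⟩
    rw [Set.ncard_univ, Nat.card_eq_fintype_card]
    exact h

end Pool.Agent.H22.SW
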